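import Pool.Agent.H9.Arens2

namespace Pool.Agent.Results.MP_67b4ec_an.SquareNonzero
open Pool.Agent.H9.Arens

/-- The Jacobson radical of `(ℓ¹(ℤ)'', □)` contains two elements with non-zero product. -/
theorem result :
    ∃ Φ ∈ Ring.jacobson (Bidual L1), ∃ Ψ ∈ Ring.jacobson (Bidual L1), Φ * Ψ ≠ 0 :=
  Pool.Agent.H9.Arens2.main

end Pool.Agent.Results.MP_67b4ec_an.SquareNonzero
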